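import Pool.Agent.Results.MP_375bfa_co.CoxeterWeightsBentFans

/-!
# The Singer-Hopf inequality for manifolds tiled by Coxeter polytopes whose vertex links are bent fans

`P` is the finite poset of the cells of a cell complex, ordered by inclusion, and `dim` is the dimension. The cells are
cubes, or more generally Coxeter polytopes (the convex hulls of generic orbits of finite Coxeter groups; the vertices of
the polytope of `W_σ` correspond to the elements of `W_σ`). The link `S` of every vertex can be realized as an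
admissible complete simplicial fan `p` in `ℝ^(2m)`.

`Admissible S p`, for a fan in `ℝ^d`: the fan bends at all faces `H` for which `d - |H|` is odd, or it is in the class
`Bent`. `Bends S p H`: there is a positive semidefinite quadratic relation `∑ G_uv x_u x_v = 0` in the face ring modulo
the linear forms (for example given by a realization of the fan in some `ℝ^N` which is isometric on the cones) and a
vector in the image of `G` which is zero on `H` and positive on the link of `H`. The class `Bent` contains the fans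
without nonzero positive semidefinite `2`-stress, the fans of simplicial hyperplane arrangements, the fans in the plane
with at least four rays, the fans obtained from all these by edge subdivisions and joins, the fans with a strictly
convex function whose negative square is a sum of squares, and the common refinements of preimages of bent fans under
linear maps (in particular, normal fans of simple Minkowski sums).

Examples of such complexes: the quotients of the Davis complex of a Coxeter group with nerve `S` by torsion free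
subgroups of finite index.
-/

set_option autoImplicit false

namespace Pool.Agent.Results.MP_9d0d86_gt.CoxeterTilesFanLinks

open Pool.Agent.H128.Bend

/-- The Coxeter matrix `(m_uv)`, `u, v ∈ σ`. -/
def restrict {n : ℕ} (M : CoxeterMatrix (Fin n)) (σ : Finset (Fin n)) : CoxeterMatrix σ where
  M := M.M.submatrix (fun i => i.1) (fun i => i.1)
  isSymm := M.isSymm.submatrix _
  diagonal i := M.diagonal i.1
  off_diagonal i j h := M.off_diagonal i.1 j.1 (fun e => h (Subtype.ext e))

/-- The order of the Coxeter group `W_σ`, generated by the vertices `v` of `σ`, with the relations `s_v ^ 2 = 1` and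
`(s_u s_v) ^ m_uv = 1`. -/
noncomputable def order {n : ℕ} (M : CoxeterMatrix (Fin n)) (σ : Finset (Fin n)) : ℕ :=
  Nat.card (restrict M σ).Group

variable {P : Type} [Fintype P] [PartialOrder P]

/-- The number of vertices of the cell `c`. -/
noncomputable def numVertices (dim : P → ℕ) (c : P) : ℕ :=
  Nat.card {v : P // dim v = 0 ∧ v ≤ c}

/-- The cells which contain the vertex `v`, ordered by inclusion, correspond to the simplices of `S`, and the cell of
`σ` has dimension `|σ|` and `|W_σ|` vertices. -/
def CellsAt (dim : P → ℕ) (v : P) {n : ℕ} (S : Finset (Finset (Fin n))) (M : CoxeterMatrix (Fin n)) : Prop :=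
  ∃ e : {c : P // v ≤ c} ≃ {σ : Finset (Fin n) // σ ∈ S},
    (∀ x y, x.1 ≤ y.1 ↔ (e x).1 ⊆ (e y).1) ∧
    ∀ x, dim x.1 = (e x).1.card ∧ numVertices dim x.1 = order M (e x).1

/-- At the vertex `v` the complex is locally an admissible complete simplicial fan in `ℝ^d`, and the cells at `v` are
Coxeter polytopes. -/
def BentFanAt (d : ℕ) (dim : P → ℕ) (v : P) {n : ℕ} (S : Finset (Finset (Fin n))) (M : CoxeterMatrix (Fin n)) : Prop :=
  (∃ p : Fin n → Fin d → ℝ, Admissible S p) ∧
  (∀ u v, ({u, v} : Finset (Fin n)) ∈ S → M u v ≠ 0) ∧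
  (∀ σ ∈ S, Finite (restrict M σ).Group) ∧ CellsAt dim v S M

/-- The Euler characteristic, the alternating number of cells. -/
def euler (dim : P → ℕ) : ℤ := ∑ c : P, (-1 : ℤ) ^ dim c

open scoped Classical in
/-- **The Singer-Hopf inequality.** Let every vertex `v` of the complex `P` of dimension `2 m` have a neighbourhood as
above, given by `S v` and `M v`. Then `(-1)^m χ(P) ≥ ∑ (-1)^m κ(S v) ≥ 0`, where `κ(S) = ∑ (-1/2)^|σ|` and each term is
nonnegative. -/
theorem result (m : ℕ) (hm : 1 ≤ m) (dim : P → ℕ) (hP : ∀ c : P, ∃ v, dim v = 0 ∧ v ≤ c)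
    (n : P → ℕ) (S : ∀ v, Finset (Finset (Fin (n v)))) (M : ∀ v, CoxeterMatrix (Fin (n v)))
    (hL : ∀ v : P, dim v = 0 → BentFanAt (2 * m) dim v (S v) (M v)) :
    0 ≤ (-1) ^ m * euler dim ∧
    (∀ v : P, dim v = 0 → 0 ≤ (-1 : ℚ) ^ m * ∑ σ ∈ S v, (-1 / 2 : ℚ) ^ σ.card) ∧
    ∑ v ∈ Finset.univ.filter (fun v : P => dim v = 0), (-1 : ℚ) ^ m * ∑ σ ∈ S v, (-1 / 2 : ℚ) ^ σ.card ≤
      (-1) ^ m * (euler dim : ℚ) := by
  have hcount : ∀ c : P, numVertices dim c = (Finset.univ.filter (fun v : P => dim v = 0 ∧ v ≤ c)).card := by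
    intro c
    rw [numVertices, Nat.card_eq_fintype_card, Fintype.card_subtype]
  -- the Euler characteristic as a sum over the vertices
  have h1 : ((euler dim : ℤ) : ℚ) = ∑ v ∈ Finset.univ.filter (fun v : P => dim v = 0),
      ∑ c ∈ Finset.univ.filter (fun c : P => v ≤ c), (-1 : ℚ) ^ dim c / numVertices dim c := by
    have h2 : ((euler dim : ℤ) : ℚ) = ∑ c : P, ∑ v ∈ Finset.univ.filter (fun v : P => dim v = 0),
        (if v ≤ c then (-1 : ℚ) ^ dim c / numVertices dim c else 0) := by
      unfold euler
      push_cast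
      refine Finset.sum_congr rfl fun c _ => ?_
      rw [← Finset.sum_filter, Finset.filter_filter, Finset.sum_const, nsmul_eq_mul, ← hcount c]
      have h3 : (numVertices dim c : ℚ) ≠ 0 := by
        rw [Nat.cast_ne_zero, hcount]
        obtain ⟨v, hv1, hv2⟩ := hP c
        exact Finset.card_ne_zero_of_mem (Finset.mem_filter.2 ⟨Finset.mem_univ v, hv1, hv2⟩)
      field_simp
    rw [h2, Finset.sum_comm]
    exact Finset.sum_congr rfl fun v _ => by rw [← Finset.sum_filter]
  -- the terms
  have h2 : ∀ v : P, dim v = 0 →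
      ∑ c ∈ Finset.univ.filter (fun c : P => v ≤ c), (-1 : ℚ) ^ dim c / numVertices dim c =
        ∑ σ ∈ S v, (-1 : ℚ) ^ σ.card / (order (M v) σ : ℚ) := by
    intro v hv
    obtain ⟨-, -, -, e, -, he⟩ := hL v hv
    symm
    refine Finset.sum_bij (fun F hF => (e.symm ⟨F, hF⟩).1) ?_ ?_ ?_ ?_
    · intro F hF
      simp only [Finset.mem_filter, Finset.mem_univ, true_and]
      exact (e.symm ⟨F, hF⟩).2
    · intro F hF F' hF' h
      have h2 := e.symm.injective (Subtype.ext h)
      exact congrArg Subtype.val h2
    · intro c hc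
      simp only [Finset.mem_filter, Finset.mem_univ, true_and] at hc
      exact ⟨(e ⟨c, hc⟩).1, (e ⟨c, hc⟩).2, by simp⟩
    · intro F hF
      have h1 := he (e.symm ⟨F, hF⟩)
      rw [Equiv.apply_symm_apply] at h1
      rw [h1.1, h1.2]
  have h3 : ∀ v : P, dim v = 0 → 0 ≤ (-1 : ℚ) ^ m * ∑ σ ∈ S v, (-1 / 2 : ℚ) ^ σ.card ∧
      (-1 : ℚ) ^ m * ∑ σ ∈ S v, (-1 / 2 : ℚ) ^ σ.card ≤
        (-1 : ℚ) ^ m * ∑ σ ∈ S v, (-1 : ℚ) ^ σ.card / (order (M v) σ : ℚ) := by
    intro v hv
    obtain ⟨⟨p, hp⟩, hM, hfin, e, -, he⟩ := hL v hv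
    have hemp : ∅ ∈ S v := by
      have h := (e ⟨v, le_refl v⟩).2
      exact (admissible hp).1 _ h ∅ (Finset.empty_subset _)
    have h4 := Pool.Agent.Results.MP_375bfa_co.CoxeterWeightsBentFans.result (d := 2 * m) (by omega) (S v) p hp
      (M v) hM hfin ∅ hemp m (by simp)
    have h5 : Pool.Agent.Results.MP_375bfa_co.CoxeterWeightsBentFans.link (S v) ∅ = S v := by
      unfold Pool.Agent.Results.MP_375bfa_co.CoxeterWeightsBentFans.link
      refine Finset.filter_true_of_mem fun G hG => ⟨Finset.disjoint_empty_right _, by rwa [Finset.union_empty]⟩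
    rw [h5] at h4
    exact h4
  have h4 : ∑ v ∈ Finset.univ.filter (fun v : P => dim v = 0), (-1 : ℚ) ^ m * ∑ σ ∈ S v, (-1 / 2 : ℚ) ^ σ.card ≤
      (-1) ^ m * (euler dim : ℚ) := by
    rw [h1, Finset.mul_sum]
    refine Finset.sum_le_sum fun v hv => ?_
    rw [h2 v (Finset.mem_filter.1 hv).2]
    exact (h3 v (Finset.mem_filter.1 hv).2).2
  have h5 : (0 : ℚ) ≤ (-1) ^ m * (euler dim : ℚ) :=
    (Finset.sum_nonneg fun v hv => (h3 v (Finset.mem_filter.1 hv).2).1).trans h4
  exact ⟨by exact_mod_cast h5, fun v hv => (h3 v hv).1, h4⟩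

end Pool.Agent.Results.MP_9d0d86_gt.CoxeterTilesFanLinks
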