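import Pool.Agent.H349.RP.H

/-!
# The Singer–Hopf sign for negatively pinched sectional curvature, in every even dimension

Let `n = 2 m ≥ 6`. If all sectional curvatures of a closed Riemannian `n`-manifold lie in
`[-b, -a]`, where `a < b` may depend on the point and
`(3 m² - 3 m - 10) b ≤ (3 m² + 6 m - 10) a`,
then the Euler characteristic has the sign `(-1)^m`; the manifold is aspherical by the theorem of
Cartan and Hadamard. More precisely, `(-1)^m` times the Gauss–Bonnet–Chern integrand is at least its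
value for constant curvature `-δ`, `δ = a - (3 m² - 3 m - 10) (b - a) / (9 m)`.

The pinching `a / b` which is needed is `8 / 35` in dimension six (a known case, which is used),
`13 / 31` in dimension eight, `10 / 19` in dimension ten, and `1 - 6 / n + O (1 / n²)`. For
`a / b ≥ (n - 2) / (n + 1) = 1 - 3 / (n + 1)` the curvature operator is nonpositive (Bourguignon and
Karcher); below it may be indefinite.

Proof. Put `E_k (R | W)` for the integrand of the restriction of `-R` to a subspace `W` of dimension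
`2 k`. Then `k E_k (R) = ⟨R, Q⟩` where the value of the form `Q` on the plane `P` is, up to a
constant, `E_{k-1} (R | P^⊥)`. If all sectional curvatures of `T` lie in `[0, β]` and `Q` is any
symmetric form on the bivectors of a space of dimension `2 k` with nonnegative sectional values, then
`⟨T, Q⟩ ≥ - ((2 k - 2) / 3) β ⟨R₀, Q⟩`. For `-R = s R₀ + T` this gives
`k E_k ≥ (s - (2 k - 2) β / 3) dE_k / ds`, and `E_k` is convex in `s` from the threshold `s_{k-1}`
on. So `k s_k = (k - 1) s_{k-1} + (2 k - 2) β / 3` are thresholds, from `s_3 = (8 / 27) β` on.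
-/

set_option autoImplicit false

namespace Pool.Agent.Results.MP_9d0d86_gt.SectionalPinchingAllDims

open MeasureTheory Pool.Agent.W666.GB Pool.Agent.H349.RP

theorem rw_cond {m : ℕ} (hm : 3 ≤ m) {a b : ℝ}
    (h : (3 * (m : ℝ) ^ 2 - 3 * m - 10) * b ≤ (3 * m ^ 2 + 6 * m - 10) * a) :
    0 ≤ a - (3 * (m : ℝ) ^ 2 - 3 * m - 10) * (b - a) / (9 * m) := by
  have h0 : (0 : ℝ) < 9 * m := by
    have : 0 < m := by omega
    positivity
  have h1 : a - (3 * (m : ℝ) ^ 2 - 3 * m - 10) * (b - a) / (9 * m) =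
      ((3 * (m : ℝ) ^ 2 + 6 * m - 10) * a - (3 * m ^ 2 - 3 * m - 10) * b) / (9 * m) := by
    field_simp
    ring
  rw [h1]
  exact div_nonneg (by linarith) h0.le

/-- **The Singer–Hopf sign for sectional curvatures in `[-b, -a]` in dimension `2 m ≥ 6`**, if
`(3 m² - 3 m - 10) b ≤ (3 m² + 6 m - 10) a`: the pointwise inequality and the integrated forms. -/
theorem result :
    (∀ (m : ℕ) (V : Type) [NormedAddCommGroup V] [InnerProductSpace ℝ V]
      (e : OrthonormalBasis (Fin m × Bool) ℝ V) (R : V → V → V → V → ℝ) (a b : ℝ), 3 ≤ m →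
      AlgCurv R → SecIn R (-b) (-a) →
      (3 * (m : ℝ) ^ 2 - 3 * m - 10) * b ≤ (3 * m ^ 2 + 6 * m - 10) * a →
        0 ≤ a - (3 * (m : ℝ) ^ 2 - 3 * m - 10) * (b - a) / (9 * m) ∧
        roundGB m (a - (3 * (m : ℝ) ^ 2 - 3 * m - 10) * (b - a) / (9 * m)) ≤
          (-1) ^ m * gbc e R) ∧
    (∀ (m : ℕ) (M : Type) [MeasurableSpace M] (μ : Measure M) (K : CurvField m M)
      (a b : M → ℝ), 3 ≤ m →
      (∀ p, SecIn (K.R p) (-b p) (-a p) ∧
        (3 * (m : ℝ) ^ 2 - 3 * m - 10) * b p ≤ (3 * m ^ 2 + 6 * m - 10) * a p) →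
        0 ≤ (-1) ^ m * ∫ p, K.gb p ∂μ ∧
        (Integrable K.gb μ →
          Integrable (fun p => roundGB m
            (a p - (3 * (m : ℝ) ^ 2 - 3 * m - 10) * (b p - a p) / (9 * m))) μ →
          ∫ p, roundGB m (a p - (3 * (m : ℝ) ^ 2 - 3 * m - 10) * (b p - a p) / (9 * m)) ∂μ ≤
            (-1) ^ m * ∫ p, K.gb p ∂μ) ∧
        (Integrable K.gb μ →
          μ {p | (3 * (m : ℝ) ^ 2 - 3 * m - 10) * b p < (3 * m ^ 2 + 6 * m - 10) * a p} ≠ 0 →
          0 < (-1) ^ m * ∫ p, K.gb p ∂μ)) := by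
  have hpt : ∀ (m : ℕ) (V : Type) [NormedAddCommGroup V] [InnerProductSpace ℝ V]
      (e : OrthonormalBasis (Fin m × Bool) ℝ V) (R : V → V → V → V → ℝ) (a b : ℝ), 3 ≤ m →
      AlgCurv R → SecIn R (-b) (-a) →
      (3 * (m : ℝ) ^ 2 - 3 * m - 10) * b ≤ (3 * m ^ 2 + 6 * m - 10) * a →
        0 ≤ a - (3 * (m : ℝ) ^ 2 - 3 * m - 10) * (b - a) / (9 * m) ∧
        roundGB m (a - (3 * (m : ℝ) ^ 2 - 3 * m - 10) * (b - a) / (9 * m)) ≤
          (-1) ^ m * gbc e R := fun m V _ _ e R a b hm hR h hc =>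
    ⟨rw_cond hm hc, point_pinched hm e hR h (rw_cond hm hc)⟩
  refine ⟨hpt, ?_⟩
  intro m M _ μ K a b hm h
  have h0 : ∀ p, 0 ≤ a p - (3 * (m : ℝ) ^ 2 - 3 * m - 10) * (b p - a p) / (9 * m) ∧
      roundGB m (a p - (3 * (m : ℝ) ^ 2 - 3 * m - 10) * (b p - a p) / (9 * m)) ≤
        (-1) ^ m * K.gb p := fun p =>
    hpt m (K.V p) (K.e p) (K.R p) (a p) (b p) hm (K.curv p) (h p).1 (h p).2
  have h1 : ∀ p, 0 ≤ (-1) ^ m * K.gb p := fun p =>
    (Pool.Agent.W669.HD.roundGB_nonneg (h0 p).1).trans (h0 p).2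
  refine ⟨?_, fun hi hi' => ?_, fun hi hμ => ?_⟩
  · rw [← integral_const_mul]
    exact integral_nonneg h1
  · rw [← integral_const_mul]
    exact integral_mono hi' (hi.const_mul _) fun p => (h0 p).2
  · rw [← integral_const_mul, integral_pos_iff_support_of_nonneg h1 (hi.const_mul _)]
    refine lt_of_lt_of_le (pos_iff_ne_zero.2 hμ) (measure_mono ?_)
    intro p hp
    have hp' : (3 * (m : ℝ) ^ 2 - 3 * m - 10) * b p < (3 * m ^ 2 + 6 * m - 10) * a p := hp
    have h2 : 0 < a p - (3 * (m : ℝ) ^ 2 - 3 * m - 10) * (b p - a p) / (9 * m) := by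
      have h3 : (0 : ℝ) < 9 * m := by
        have : 0 < m := by omega
        positivity
      have h4 : a p - (3 * (m : ℝ) ^ 2 - 3 * m - 10) * (b p - a p) / (9 * m) =
          ((3 * (m : ℝ) ^ 2 + 6 * m - 10) * a p - (3 * m ^ 2 - 3 * m - 10) * b p) / (9 * m) := by
        field_simp
        ring
      rw [h4]
      exact div_pos (by linarith) h3
    exact ((roundGB_pos (m := m) h2).trans_le (h0 p).2).ne'

end Pool.Agent.Results.MP_9d0d86_gt.SectionalPinchingAllDims
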