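import Pool.Agent.H15.PfEx
import Pool.Graph.R_pool_sql_team_seeded_843ab51a.Results.MP_5a30bb_gt.PencilTensors

set_option autoImplicit false

/-!
# The Hopf sign for sums of two-form tensors

For a two-form `ω` put
`R_ω x y z w = ω x z ω y w - ω x w ω y z + 2 ω x y ω z w`; this is an algebraic curvature tensor
(`AlgCurv`) and `R_ω x y x y = 3 (ω x y)²`.  `gbc e R` is the Gauss–Bonnet–Chern integrand in
dimension `2 m`, `roundGB m δ` the absolute value of its value for constant curvature `-δ`.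
`tfT ω = - ∑ R_ω`, the sum over a finite family.

`TF T`: `T = - ∑ R_ω`, where the finitely many two-forms `ω` are in a space of dimension at most two
(a pencil).

(1) Every such `T` has nonpositive sectional curvature and the sign `(-1)^m gbc e T ≥ 0`, also on
all even-dimensional subspaces.
(2) Equality holds if and only if all linear combinations of the two-forms are degenerate.
(3) If `R = T + ∑ P_j - δ · (unit tensor)`, `δ ≥ 0`, where the `P_j` are finitely many tensors of
nonpositive sectional curvature in the quadratic span of two symmetric forms with quadratic form not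
positive definite (for instance `-(1/2) k ∧ k` for nonnegative `k`), then `(-1)^m` times the
integrand of `R` is at least its value for constant curvature `-δ`, and the integrand is
superadditive.
(4) The same for tensors of multiply warped type with blocks of such tensors.
(5) The integrated forms.
(6) Block decompositions, any number of two-forms: let `V` be the direct sum of subspaces `W_i`
which are orthogonal for all forms of the family, and assume for every `i` (`Tame`) that the
restrictions to `W_i` are in a pencil, or that there is an operator `κ` of `W_i` with `κ² = 1` or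
`κ² = -1` and `ω (κ x) (κ y) = - ω x y` for all forms (`κ² = 1`: `W_i` is the sum of two subspaces
isotropic for all forms; `κ² = -1`: all forms are of type (2,0) + (0,2) for a complex structure).
Then `- ∑ R_ω` has the sign, and it is strict if some linear combination of the forms is
nondegenerate.
(7) The number two in (1) is best possible in every dimension `2 m ≥ 6`: there are three two-forms
for which `- ∑ R_ω` has the opposite strict sign.
(8) For `m ≥ 2` there are tensors `- R_ω` whose curvature operator takes a positive value (so they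
are not covered by the classical case of nonpositive curvature operators).
-/

namespace Pool.Agent.Results.MP_9d0d86_gt.TwoFormPencils

open MeasureTheory Pool.Agent.W666.GB Pool.Agent.W669.HD Pool.Agent.Y519.HB Pool.Agent.H15.GB
open Pool.Agent.H15.Pf
open Pool.Agent.Results.MP_5a30bb_gt.PencilTensors (PencilN super_aux)

section defs

variable {V : Type} [NormedAddCommGroup V] [InnerProductSpace ℝ V]

/-- The tensors `- ∑ R_ω` for finitely many two-forms in a pencil. -/
def TF (T : V → V → V → V → ℝ) : Prop :=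
  ∃ (n : ℕ) (ω : Fin n → V → V → ℝ) (α γ : V → V → ℝ) (s t : Fin n → ℝ),
    (∀ ν, TwoForm (ω ν)) ∧ (∀ ν x y, ω ν x y = s ν * α x y + t ν * γ x y) ∧
    ∀ x y z w, T x y z w =
      -∑ ν, (ω ν x z * ω ν y w - ω ν x w * ω ν y z + 2 * (ω ν x y * ω ν z w))

/-- `T` plus finitely many tensors in `PencilN` minus `δ` times the unit tensor, `T` in `TF`. -/
def Sums (δ : ℝ) (R : V → V → V → V → ℝ) : Prop :=
  ∃ (S : V → V → V → V → ℝ) (q : ℕ) (P : Fin q → V → V → V → V → ℝ),
    TF S ∧ (∀ j, PencilN (P j)) ∧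
    ∀ a b c d, R a b c d = S a b c d + (∑ j, P j a b c d) - δ * unitT a b c d

/-- Multiply warped type, with blocks that have dimension at most five or carry a tensor in `TF`:
a tensor on each block and one Kulkarni–Nomizu product for each pair of blocks. -/
def Warped (δ : ℝ) (R : V → V → V → V → ℝ) : Prop :=
  ∃ (r : ℕ) (U : Fin r → Submodule ℝ V) (S : Fin r → V → V → V → V → ℝ)
    (h k : Fin r → Fin r → V → V → ℝ), OrthSum U ∧
    (∀ i, (Module.finrank ℝ (U i) ≤ 5 ∧ AlgCurv (S i)) ∨ TF (S i)) ∧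
    (∀ i, LivesOn (U i) (S i)) ∧
    (∀ i j, SymForm (U i) (h i j)) ∧ (∀ i j, SymForm (U j) (k i j)) ∧
    (∀ a b c d, R a b c d + δ * unitT a b c d = (∑ i, S i a b c d) +
      ∑ i, ∑ j, if i < j then kn (h i j) (k i j) a b c d else 0) ∧
    ∀ a b, R a b a b + δ * unitT a b a b ≤ 0

end defs

section proofs

variable {V : Type} [NormedAddCommGroup V] [InnerProductSpace ℝ V]

theorem TF.curv {T : V → V → V → V → ℝ} (hT : TF T) : AlgCurv T := by
  obtain ⟨n, ω, α, γ, s, t, hω, -, he⟩ := hT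
  have e : T = tfT ω := by
    funext a b c d
    exact he a b c d
  rw [e]
  exact tfT_curv hω

theorem TF.sec {T : V → V → V → V → ℝ} (hT : TF T) (x y : V) : T x y x y ≤ 0 := by
  obtain ⟨n, ω, α, γ, s, t, hω, -, he⟩ := hT
  rw [he, Left.neg_nonpos_iff]
  refine Finset.sum_nonneg fun ν _ => ?_
  rw [(hω ν).self x, (hω ν).self y, (hω ν).skew y x]
  nlinarith [sq_nonneg (ω ν x y)]

theorem TF.hopf {T : V → V → V → V → ℝ} (hT : TF T) (U : Submodule ℝ V) : HopfOn U T := by
  obtain ⟨n, ω, α, γ, s, t, hω, hp, he⟩ := hT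
  intro k E _ e
  have h1 : (fun x y z w : E => T x y z w) = tfT (fun ν (x y : E) => ω ν x y) := by
    funext x y z w
    exact he _ _ _ _
  rw [h1]
  exact (fam_sign e (ω := fun ν (x y : E) => ω ν x y)
    (fun ν => ⟨fun x x' y => (hω ν).add _ _ _, fun t x y => (hω ν).smul _ _ _,
      fun x y => (hω ν).skew _ _⟩) (α := fun x y : E => α x y) (γ := fun x y : E => γ x y)
    (s := s) (t := t) (fun ν x y => hp ν _ _)).1

theorem sums_bound {m : ℕ} (e : OrthonormalBasis (Fin m × Bool) ℝ V) {δ : ℝ} (hδ : 0 ≤ δ)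
    {R : V → V → V → V → ℝ} (hR : Sums δ R) : roundGB m δ ≤ (-1) ^ m * gbc e R := by
  obtain ⟨S, q, P, hS, hP, hR⟩ := hR
  exact MP_5a30bb_gt.PencilTensors.sums_bound e hδ
    ⟨S, q, P, Or.inr ⟨hS.curv, hS.hopf ⊤⟩, hP, hR⟩

theorem warped_type {δ : ℝ} {R : V → V → V → V → ℝ} (hR : Warped δ R) :
    WarpType δ R := by
  obtain ⟨r, U, S, h, k, hO, hd, hL, hh, hk, hR, hK⟩ := hR
  refine ⟨r, U, S, h, k, hO, fun i => ?_, fun i => ?_, hL, hh, hk, hR, hK⟩
  · rcases hd i with h1 | h1
    · exact Or.inl h1.1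
    · exact Or.inr (h1.hopf (U i))
  · rcases hd i with h1 | h1
    · exact h1.2
    · exact h1.curv

theorem warped_bound {m : ℕ} (e : OrthonormalBasis (Fin m × Bool) ℝ V) {δ : ℝ} (hδ : 0 ≤ δ)
    {R : V → V → V → V → ℝ} (hR : Warped δ R) : roundGB m δ ≤ (-1) ^ m * gbc e R := by
  have hfin : FiniteDimensional ℝ V := e.toBasis.finiteDimensional_of_finite
  exact cls_bound e hδ (Or.inr (Or.inr (warped_type hR)))

theorem all_bound {m : ℕ} (e : OrthonormalBasis (Fin m × Bool) ℝ V) {δ : ℝ} (hδ : 0 ≤ δ)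
    {R : V → V → V → V → ℝ} (hR : Sums δ R ∨ Warped δ R) :
    roundGB m δ ≤ (-1) ^ m * gbc e R := by
  rcases hR with h | h
  · exact sums_bound e hδ h
  · exact warped_bound e hδ h

end proofs

/-- See the text at the head of the file. -/
theorem result :
    -- (1) the sign
    (∀ (m : ℕ) (V : Type) [NormedAddCommGroup V] [InnerProductSpace ℝ V]
      (T : V → V → V → V → ℝ), TF T → AlgCurv T ∧ (∀ x y, T x y x y ≤ 0) ∧
        (∀ e : OrthonormalBasis (Fin m × Bool) ℝ V, 0 ≤ (-1) ^ m * gbc e T) ∧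
        ∀ (E : Submodule ℝ V) (e : OrthonormalBasis (Fin m × Bool) ℝ E),
          0 ≤ (-1) ^ m * gbc e (fun x y z w : E => T x y z w)) ∧
    -- (2) the equality case
    (∀ (m : ℕ) (V : Type) [NormedAddCommGroup V] [InnerProductSpace ℝ V]
      (e : OrthonormalBasis (Fin m × Bool) ℝ V) (n : ℕ) (ω : Fin n → V → V → ℝ)
      (α γ : V → V → ℝ) (s t : Fin n → ℝ), (∀ ν, TwoForm (ω ν)) →
      (∀ ν x y, ω ν x y = s ν * α x y + t ν * γ x y) →
      ((-1) ^ m * gbc e (tfT ω) = 0 ↔
        ∀ c : Fin n → ℝ, ∃ x : V, x ≠ 0 ∧ ∀ y, ∑ ν, c ν * ω ν x y = 0)) ∧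
    -- (3) sums: lower bound and superadditivity
    (∀ (m : ℕ) (V : Type) [NormedAddCommGroup V] [InnerProductSpace ℝ V]
      (e : OrthonormalBasis (Fin m × Bool) ℝ V) (R : V → V → V → V → ℝ) (δ : ℝ), 0 ≤ δ →
      Sums δ R → roundGB m δ ≤ (-1) ^ m * gbc e R) ∧
    (∀ (m : ℕ) (V : Type) [NormedAddCommGroup V] [InnerProductSpace ℝ V]
      (e : OrthonormalBasis (Fin m × Bool) ℝ V) (S T : V → V → V → V → ℝ) (n : ℕ)
      (P : Fin n → V → V → V → V → ℝ) (δ : ℝ), 0 < m → 0 ≤ δ → TF S → (∀ j, PencilN (P j)) →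
      (∀ a b c d, T a b c d = (∑ j, P j a b c d) - δ * unitT a b c d) →
      (-1) ^ m * gbc e S + (-1) ^ m * gbc e T ≤ (-1) ^ m * gbc e (addT S T)) ∧
    -- (4) multiply warped type
    (∀ (m : ℕ) (V : Type) [NormedAddCommGroup V] [InnerProductSpace ℝ V]
      (e : OrthonormalBasis (Fin m × Bool) ℝ V) (R : V → V → V → V → ℝ) (δ : ℝ), 0 ≤ δ →
      Warped δ R → roundGB m δ ≤ (-1) ^ m * gbc e R) ∧
    -- (5) integrated forms
    (∀ (m : ℕ) (M : Type) [MeasurableSpace M] (μ : Measure M) (K : CurvField m M),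
      (∀ p, Sums 0 (K.R p) ∨ Warped 0 (K.R p)) → 0 ≤ (-1) ^ m * ∫ p, K.gb p ∂μ) ∧
    (∀ (m : ℕ) (M : Type) [MeasurableSpace M] (μ : Measure M) [IsFiniteMeasure μ]
      (K : CurvField m M) (δ : ℝ), Integrable K.gb μ → 0 ≤ δ →
      (∀ p, Sums δ (K.R p) ∨ Warped δ (K.R p)) →
        roundGB m δ * μ.real Set.univ ≤ (-1) ^ m * ∫ p, K.gb p ∂μ) ∧
    -- (6) block decompositions, any number of two-forms
    (∀ (m : ℕ) (V : Type) [NormedAddCommGroup V] [InnerProductSpace ℝ V]
      (e : OrthonormalBasis (Fin m × Bool) ℝ V) (n r : ℕ) (ω : Fin n → V → V → ℝ)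
      (W : Fin r → Submodule ℝ V), (∀ ν, TwoForm (ω ν)) → DirectSum.IsInternal W →
      (∀ i j, i ≠ j → ∀ ν, ∀ x ∈ W i, ∀ y ∈ W j, ω ν x y = 0) → (∀ i, Tame (W i) ω) →
        AlgCurv (tfT ω) ∧ 0 ≤ (-1) ^ m * gbc e (tfT ω) ∧
        ((∃ c : Fin n → ℝ, ∀ x : V, (∀ y, ∑ ν, c ν * ω ν x y = 0) → x = 0) →
          0 < (-1) ^ m * gbc e (tfT ω))) ∧
    -- (7) three two-forms in a three-dimensional space do not suffice
    (∀ (m : ℕ) (V : Type) [NormedAddCommGroup V] [InnerProductSpace ℝ V]
      (e : OrthonormalBasis (Fin m × Bool) ℝ V), 3 ≤ m → ∃ ω : Fin 3 → V → V → ℝ,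
        (∀ ν, TwoForm (ω ν)) ∧ AlgCurv (tfT ω) ∧ (∀ x y, tfT ω x y x y ≤ 0) ∧
        (-1) ^ m * gbc e (tfT ω) < 0) ∧
    -- (8) the curvature operator need not be nonpositive
    (∀ (m : ℕ) (V : Type) [NormedAddCommGroup V] [InnerProductSpace ℝ V]
      (e : OrthonormalBasis (Fin m × Bool) ℝ V), 2 ≤ m → ∃ T : V → V → V → V → ℝ, TF T ∧
        0 < ∑ i, ∑ j, T (e (i, false)) (e (i, true)) (e (j, false)) (e (j, true))) := by
  refine ⟨?_, ?_, fun _ _ _ _ e _ _ hδ hR => sums_bound e hδ hR, ?_,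
    fun _ _ _ _ e _ _ hδ hR => warped_bound e hδ hR, ?_, ?_, ?_, ?_, ?_⟩
  · intro m V _ _ T hT
    refine ⟨hT.curv, hT.sec, fun e => ?_, fun E e => hT.hopf ⊤ m E le_top e⟩
    obtain ⟨n, ω, α, γ, s, t, hω, hp, he⟩ := hT
    have h1 : T = tfT ω := by
      funext a b c d
      exact he a b c d
    rw [h1]
    exact (fam_sign e hω hp).1
  · intro m V _ _ e n ω α γ s t hω hp
    exact (fam_sign e hω hp).2
  · intro m V _ _ e S T n P δ hm hδ hS hP hT
    have hfin : FiniteDimensional ℝ V := e.toBasis.finiteDimensional_of_finite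
    obtain ⟨q, x, y, hxy⟩ := super_aux hP hT
    exact (mono_super hm e hδ hS.curv (fun k _ E e => hS.hopf ⊤ k E le_top e) hxy).1
  · intro m M _ μ K hK
    rw [← integral_const_mul]
    refine integral_nonneg fun p => ?_
    exact (roundGB_nonneg le_rfl).trans (all_bound (K.e p) le_rfl (hK p))
  · intro m M _ μ _ K δ hi hδ hK
    rw [← integral_const_mul]
    have h1 : roundGB m δ * μ.real Set.univ = ∫ _, roundGB m δ ∂μ := by
      rw [integral_const, smul_eq_mul, mul_comm]
    rw [h1]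
    exact integral_mono (integrable_const _) (hi.const_mul _) fun p => all_bound (K.e p) hδ (hK p)
  · intro m V _ _ e n r ω W hω hW horth htame
    obtain ⟨h1, h2⟩ := blocks_sign hW hω horth htame e
    refine ⟨tfT_curv hω, h1, fun ⟨c, hc⟩ => h2 ⟨c, ?_⟩⟩
    rintro ⟨x, hx, hx'⟩
    exact hx (hc x hx')
  · intro m V _ _ e hm
    obtain ⟨ω, hω, h1⟩ := three_all hm e
    refine ⟨ω, hω, tfT_curv hω, fun x y => ?_, h1⟩
    unfold tfT
    rw [Left.neg_nonpos_iff]
    refine Finset.sum_nonneg fun ν _ => ?_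
    rw [(hω ν).self x, (hω ν).self y, (hω ν).skew y x]
    nlinarith [sq_nonneg (ω ν x y)]
  · intro m V _ _ e hm
    obtain ⟨ω, hω, hp⟩ := example_op e hm
    refine ⟨tfT (N := Fin 1) (fun _ => ω), ⟨1, fun _ => ω, ω, fun _ _ => 0, fun _ => 1, fun _ => 0,
      fun _ => hω, fun _ x y => by ring, fun _ _ _ _ => rfl⟩, ?_⟩
    unfold tfT
    simp only [Fin.sum_univ_one]
    exact hp

end Pool.Agent.Results.MP_9d0d86_gt.TwoFormPencils
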